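import Pool.Agent.KS6_12.GH.Idl
import Pool.Graph.R_pool_sql_team_seeded_64922ed1.X51.Golod.Lift
import Pool.Graph.R_pool_sql_team_seeded_64922ed1.X51.Golod.Height

/-!
# Golod Cohen-Macaulay rings of type two in every height

For every field `K` of characteristic zero and every `n ≥ 2` there is a homogeneous ideal `I` of
`S = K[x_1, …, x_n]` of height `n`, `𝔪^(2 n²) ⊆ I ⊆ 𝔪^(n² + 1)`, such that `S / I` is artinian (so
Cohen-Macaulay), Golod and of type exactly two. For `n ≥ 3` the type is smaller than the height, and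
no function of the height which is larger than two somewhere bounds the type from below.

The ideal is the annihilator of two forms `Φ_P`, `Φ_Q` of degree `2 n² - 1`, each a sum of powers of
linear forms indexed by half of the monomials of degree `n² - 1`; the linear forms are the points of
two principal lattices in general position.
-/

set_option autoImplicit false

namespace Pool.Agent.Results.MP_5d828d_al.EveryHeight

open MvPolynomial Finset

section defs

variable {K R : Type} [Field K] [CommRing R] [Algebra K R] {n : ℕ}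

/-- The differential of the Koszul complex of `x_1, …, x_n` over `R`. An element `∑_T f_T e_T` is
given by its coefficients `f T`, `T ⊆ {1, …, n}`; `bd x f T` is the coefficient of `e_T` in its
differential. -/
def bd (x : Fin n → R) (f : Finset (Fin n) → R) (T : Finset (Fin n)) : R :=
  ∑ j ∈ Tᶜ, (-1) ^ (T.filter (· < j)).card * (x j * f (insert j T))

/-- The product of the Koszul complex: `e_A e_B = (-1)^{#{(a, b) ∈ A × B : b < a}} e_{A ∪ B}` if `A`
and `B` are disjoint, and `0` otherwise. -/
def mul (f g : Finset (Fin n) → R) (T : Finset (Fin n)) : R :=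
  ∑ A ∈ T.powerset, (-1) ^ ((A ×ˢ (T \ A)).filter (fun p => p.2 < p.1)).card * (f A * g (T \ A))

/-- `f` is homogeneous of degree `i` in the Koszul complex. -/
def Hom (i : ℕ) (f : Finset (Fin n) → R) : Prop := ∀ T, T.card ≠ i → f T = 0

/-- `bar f = (-1)^(i + 1) f` for `f` of degree `i`. -/
def bar (f : Finset (Fin n) → R) (T : Finset (Fin n)) : R := (-1) ^ (T.card + 1) * f T

/-- The Koszul complex `K(x_1, …, x_n; R)` has a trivial Massey operation: there are index sets
`ι i` for bases of `H_{i+1}` and a function `μ` on lists of indices with values in the Koszul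
complex such that (1) the `μ [b]`, `b ∈ ι i`, are `(i+1)`-cycles whose classes are a `K`-basis of
`H_{i+1}`; (2) `μ (b_1, …, b_p)` is homogeneous of degree `∑ (|b_j| + 1) - 1` and
`∂ μ (b_1, …, b_p) = ∑_{0 < j < p} bar (μ (b_1, …, b_j)) μ (b_{j+1}, …, b_p)` for `p ≥ 2`. -/
def IsGolod (K : Type) [Field K] [Algebra K R] (x : Fin n → R) : Prop :=
  ∃ (ι : ℕ → Type) (μ : List (Σ i, ι i) → Finset (Fin n) → R),
    (∀ l, l ≠ [] → Hom ((l.map fun b => b.1 + 2).sum - 1) (μ l)) ∧
    (∀ b, bd x (μ [b]) = 0) ∧
    (∀ i z, Hom (i + 1) z → bd x z = 0 → ∃! c : ι i →₀ K,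
      ∃ w, Hom (i + 2) w ∧ z = (c.sum fun b a => a • μ [⟨i, b⟩]) + bd x w) ∧
    (∀ l, 2 ≤ l.length → bd x (μ l) =
      ∑ j ∈ Finset.Ico 1 l.length, mul (bar (μ (l.take j))) (μ (l.drop j)))

/-- The socle of `S / I`: the elements killed by all variables. Its dimension is the type of `S / I`
if `S / I` is artinian. -/
def socle {K : Type} [Field K] {n : ℕ} (I : Ideal (MvPolynomial (Fin n) K)) :
    Submodule K (MvPolynomial (Fin n) K ⧸ I) where
  carrier := {z | ∀ i : Fin n, Ideal.Quotient.mk I (X i) * z = 0}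
  add_mem' := by
    intro a b ha hb i
    rw [mul_add, ha i, hb i, add_zero]
  zero_mem' := by
    intro i
    rw [mul_zero]
  smul_mem' := by
    intro c z hz i
    rw [mul_smul_comm, hz i, smul_zero]

end defs

/-- **Golod Cohen-Macaulay rings of type two in every height.** -/
theorem result (K : Type) [Field K] [CharZero K] (n : ℕ) (hn : 2 ≤ n) :
    ∃ I : Ideal (MvPolynomial (Fin n) K),
      (∀ p ∈ I, ∀ c, homogeneousComponent c p ∈ I) ∧
      idealOfVars (Fin n) K ^ (2 * n ^ 2) ≤ I ∧ I ≤ idealOfVars (Fin n) K ^ (n ^ 2 + 1) ∧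
      IsArtinianRing (MvPolynomial (Fin n) K ⧸ I) ∧
      I.height = n ∧
      IsGolod K (fun j => Ideal.Quotient.mk I (X j)) ∧
      Module.finrank K (socle I) = 2 := by
  obtain ⟨k, rfl⟩ := Nat.exists_eq_add_of_le hn
  rw [Nat.add_comm 2 k]
  have h1 := Pool.Agent.KS6_12.GH.le_II (K := K) (k := k)
  have h2 := Pool.Agent.KS6_12.GH.II_le (K := K) (k := k)
  refine ⟨Pool.Agent.KS6_12.GH.II K k, fun p hp c => Pool.Agent.KS6_12.GH.II_homog hp c, h1, h2,
    Pool.Agent.KS6_12.GH.artin _ _ h1, ?_, ?_, Pool.Agent.KS6_12.GH.socle_rank⟩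
  · exact Pool.Agent.X51.Golod.height_eq _ _ (h2.trans (Ideal.pow_le_self (by omega))) h1
  · exact Pool.Agent.X51.Golod.golod_low _ ((k + 2) ^ 2 + 1) h2
      (by rw [show 2 * ((k + 2) ^ 2 + 1) - 2 = 2 * (k + 2) ^ 2 by omega]; exact h1)

end Pool.Agent.Results.MP_5d828d_al.EveryHeight
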